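import Pool.Agent.U625.ST.Rel

/-!
# Slopes: existence, and numbers of height one
-/

set_option autoImplicit false

namespace Pool.Agent.U625.ST

open NumberField NumberField.IsCMField Pool.Agent.TH121.KT

/-- The absolute values of algebraic numbers are rational powers of `p`. -/
theorem exists_slope {p : ℕ} [Fact p.Prime] (x : PadicAlgCl p) (hx : x ≠ 0) :
    ∃ s : ℚ, ‖x‖ = (p : ℝ) ^ (-(s : ℝ)) := by
  have hp : (0 : ℝ) < p := by exact_mod_cast (Fact.out : p.Prime).pos
  have hint : IsIntegral ℚ_[p] x := Algebra.IsIntegral.isIntegral x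
  have h1 : ‖x‖ = ‖(minpoly ℚ_[p] x).coeff 0‖ ^ (1 / (minpoly ℚ_[p] x).natDegree : ℝ) :=
    spectralNorm.spectralNorm_eq_norm_coeff_zero_rpow ℚ_[p] (PadicAlgCl p) x
  have h2 : (minpoly ℚ_[p] x).coeff 0 ≠ 0 := minpoly.coeff_zero_ne_zero hint hx
  have h3 := Padic.norm_eq_zpow_neg_valuation h2
  refine ⟨((minpoly ℚ_[p] x).coeff 0).valuation / (minpoly ℚ_[p] x).natDegree, ?_⟩
  rw [h1, h3, ← Real.rpow_intCast, ← Real.rpow_mul hp.le]
  congr 1
  push_cast
  ring

/-- Every number which is not zero has slopes. -/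
theorem exists_slopes {p : ℕ} [Fact p.Prime] (ι : AlgebraicClosure ℚ →+* PadicAlgCl p) {K : Type}
    [Field K] (α : K) (hα : α ≠ 0) :
    ∃ v : (K →+* AlgebraicClosure ℚ) → ℚ, IsSlopes p ι α v := by
  choose v hv using fun σ : K →+* AlgebraicClosure ℚ => exists_slope (ι (σ α)) (by
    rw [ne_eq, map_eq_zero, map_eq_zero]
    exact hα)
  exact ⟨v, hv⟩

variable {p : ℕ} [Fact p.Prime] {ι : Qb →+* PadicAlgCl p}

/-- The slope traces of numbers of height one. -/
theorem slopeTrace_heightOne {K : Type} [Field K] [NumberField K] [IsCMField K] {α : K}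
    {a : K →+* Qb} (ha : IsHeightOne p ι a α) {v : (K →+* Qb) → ℚ} (hv : IsSlopes p ι α v)
    (y : K) (hy : complexConj K y = - y) :
    slopeTrace v y = (2 * v a : ℚ) * a y := by
  classical
  have hlog : 0 < Real.log p :=
    Real.log_pos (by exact_mod_cast (Fact.out : p.Prime).one_lt)
  have h0 : ∀ σ : K →+* Qb, σ ≠ a → σ ≠ cj a → v σ = 0 := by
    intro σ h1 h2
    have h3 := log_slope hv σ
    rw [ha.norm_eq_one h1 h2, Real.log_one] at h3
    have h4 : (v σ : ℝ) = 0 := by
      have h5 := (mul_eq_zero.1 h3.symm).resolve_right hlog.ne'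
      linarith
    exact_mod_cast h4
  have hne := ha.cj_ne
  have h1 : slopeTrace v y = ∑ σ ∈ {a, cj a}, (v σ : Qb) * σ y := by
    refine (Finset.sum_subset (Finset.subset_univ _) fun σ _ hσ => ?_).symm
    rw [Finset.mem_insert, Finset.mem_singleton, not_or] at hσ
    rw [h0 σ hσ.1 hσ.2, Rat.cast_zero, zero_mul]
  rw [h1, Finset.sum_pair hne.symm, slope_cj hv ha.unitary, cj_apply, hy, map_neg]
  push_cast
  ring

theorem slope_pos {K : Type} [Field K] [NumberField K] [IsCMField K] {α : K}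
    {a : K →+* Qb} (ha : IsHeightOne p ι a α) {v : (K →+* Qb) → ℚ} (hv : IsSlopes p ι α v) :
    0 < v a := by
  have hlog : 0 < Real.log p :=
    Real.log_pos (by exact_mod_cast (Fact.out : p.Prime).one_lt)
  have h1 := ha.log_lt
  rw [log_slope hv a] at h1
  have h2 : 0 < (v a : ℝ) * Real.log p := by linarith
  exact_mod_cast (pos_iff_pos_of_mul_pos h2).2 hlog

/-- **Numbers of height one.** The slope traces are independent modulo `L` if and only if the images
`a i (K i ^ -)` of the spaces of imaginary elements are linearly independent modulo `L`. -/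
theorem slopeIndependent_iff {r : ℕ} {K : Fin r → Type} [∀ i, Field (K i)]
    [∀ i, NumberField (K i)] [∀ i, IsCMField (K i)] {α : ∀ i, K i}
    {a : ∀ i, K i →+* Qb} (ha : ∀ i, IsHeightOne p ι (a i) (α i))
    {v : ∀ i, (K i →+* Qb) → ℚ} (hv : ∀ i, IsSlopes p ι (α i) (v i))
    (L : IntermediateField ℚ Qb) :
    SlopeIndependent v L ↔ ∀ y : ∀ i, K i, Imaginary y → ∑ i, a i (y i) ∈ L → y = 0 := by
  have hpos : ∀ i, (2 * v i (a i) : ℚ) ≠ 0 := fun i =>
    mul_ne_zero two_ne_zero (slope_pos (ha i) (hv i)).ne'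
  constructor
  · intro h y hy hL
    funext i
    have h1 := congrFun (h (fun i => ((2 * v i (a i) : ℚ)⁻¹ : ℚ) * y i) ?_ ?_) i
    · have h0 : ((2 * v i (a i) : ℚ)⁻¹ : ℚ) * y i = 0 := h1
      rcases mul_eq_zero.1 h0 with h2 | h2
      · have h3 : (2 * v i (a i) : ℚ)⁻¹ = 0 := by exact_mod_cast h2
        exact absurd (inv_eq_zero.1 h3) (hpos i)
      · exact h2
    · intro i
      rw [map_mul, map_ratCast, hy i]
      ring
    · have h2 : ∀ i, slopeTrace (v i) (((2 * v i (a i) : ℚ)⁻¹ : ℚ) * y i) = a i (y i) := by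
        intro i
        rw [slopeTrace_heightOne (ha i) (hv i) _ (by rw [map_mul, map_ratCast, hy i]; ring),
          map_mul, map_ratCast, ← mul_assoc, ← Rat.cast_mul, mul_inv_cancel₀ (hpos i),
          Rat.cast_one, one_mul]
      rw [Finset.sum_congr rfl fun i _ => h2 i]
      exact hL
  · intro h y hy hL
    funext i
    have h1 := congrFun (h (fun i => (2 * v i (a i) : ℚ) * y i) ?_ ?_) i
    · have h0 : ((2 * v i (a i) : ℚ) : K i) * y i = 0 := h1
      rcases mul_eq_zero.1 h0 with h2 | h2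
      · have h3 : (2 * v i (a i) : ℚ) = 0 := by exact_mod_cast h2
        exact absurd h3 (hpos i)
      · exact h2
    · intro i
      rw [map_mul, map_ratCast, hy i]
      ring
    · have h2 : ∀ i, a i ((2 * v i (a i) : ℚ) * y i) = slopeTrace (v i) (y i) := by
        intro i
        rw [slopeTrace_heightOne (ha i) (hv i) _ (hy i), map_mul, map_ratCast]
      rw [Finset.sum_congr rfl fun i _ => h2 i]
      exact hL

end Pool.Agent.U625.ST
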