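import Mathlib
import Pool.Agent.H485R3.Hodge.Balance
import Pool.Agent.U625.K3.Tate

/-!
# Slope traces: the core
-/

set_option autoImplicit false

namespace Pool.Agent.U625.ST

open NumberField NumberField.IsCMField Pool.Agent.H485R3 Pool.Agent.H485R3.Hodge Polynomial

section core

variable {K : Type*} [Field K] [NumberField K] [IsCMField K] {L : Type*} [Field L] [Algebra ℚ L]
  [FiniteDimensional ℚ L] [IsGalois ℚ L] (c : L ≃ₐ[ℚ] L)
  (hc : ∀ (τ : K →ₐ[ℚ] L) (z : K), c (τ z) = τ (complexConj K z))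

include hc in
theorem act_c (g : L ≃ₐ[ℚ] L) (φ : K →ₐ[ℚ] L) : act g (act c φ) = act c (act g φ) := by
  ext z
  change g (c (φ z)) = c (act g φ z)
  rw [hc, hc]
  rfl

include hc in
theorem act_c_c (φ : K →ₐ[ℚ] L) : act c (act c φ) = φ := by
  ext z
  change c (c (φ z)) = φ z
  rw [hc, hc, complexConj_apply_apply]

include hc in
/-- A function on the embeddings gives an element of the field. -/
theorem exists_eta (hne : Nonempty (K →ₐ[ℚ] L)) (n : (K →ₐ[ℚ] L) → ℚ)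
    (hodd : ∀ φ, n (act c φ) = - n φ) (θ : L) :
    ∃ η : K, complexConj K η = - η ∧
      ∀ φ : K →ₐ[ℚ] L, φ η = ∑ u : L ≃ₐ[ℚ] L, algebraMap ℚ L (n (act u⁻¹ φ)) * u θ := by
  classical
  obtain ⟨s⟩ := hne
  let Y : (K →ₐ[ℚ] L) → L := fun φ => ∑ u : L ≃ₐ[ℚ] L, algebraMap ℚ L (n (act u⁻¹ φ)) * u θ
  have hmove : ∀ (h : L ≃ₐ[ℚ] L) (φ : K →ₐ[ℚ] L), h (Y φ) = Y (act h φ) := by
    intro h φ
    simp only [Y]
    rw [map_sum, ← Equiv.sum_comp (Equiv.mulLeft h)
      (fun u : L ≃ₐ[ℚ] L => algebraMap ℚ L (n (act u⁻¹ (act h φ))) * u θ)]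
    refine Finset.sum_congr rfl fun u _ => ?_
    rw [map_mul, AlgEquiv.commutes, Equiv.coe_mulLeft, mul_inv_rev, act_mul, act_inv_act,
      AlgEquiv.mul_apply]
  have hfix : Y s ∈ s.fieldRange := by
    rw [← IsGalois.fixedField_fixingSubgroup s.fieldRange, IntermediateField.mem_fixedField_iff]
    intro h hh
    have hs : act h s = s := by
      ext z
      exact (IntermediateField.mem_fixingSubgroup_iff _ _).1 hh _ ⟨z, rfl⟩
    rw [hmove, hs]
  obtain ⟨η, hη⟩ := hfix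
  have hη' : s η = Y s := hη
  have hall : ∀ φ : K →ₐ[ℚ] L, φ η = Y φ := by
    intro φ
    obtain ⟨g, hg⟩ := U625.K3.exists_act s φ
    rw [← hg, ← hmove, ← hη']
    rfl
  refine ⟨η, ?_, hall⟩
  apply s.toRingHom.injective
  change s (complexConj K η) = s (- η)
  have h1 : s (complexConj K η) = (act c s) η := (hc s η).symm
  rw [h1, hall, map_neg, hall]
  simp only [Y]
  rw [← Finset.sum_neg_distrib]
  refine Finset.sum_congr rfl fun u _ => ?_
  rw [act_c c hc, hodd, map_neg, neg_mul]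

/-- the slope trace of this element -/
theorem trace_eta [Fintype (K →ₐ[ℚ] L)] (n V : (K →ₐ[ℚ] L) → ℚ) (θ : L) (η : K)
    (hη : ∀ φ : K →ₐ[ℚ] L, φ η = ∑ u : L ≃ₐ[ℚ] L, algebraMap ℚ L (n (act u⁻¹ φ)) * u θ) :
    ∑ φ : K →ₐ[ℚ] L, algebraMap ℚ L (V φ) * φ η =
      ∑ u : L ≃ₐ[ℚ] L, algebraMap ℚ L (∑ φ : K →ₐ[ℚ] L, n φ * V (act u φ)) * u θ := by
  classical
  have h1 : ∀ φ : K →ₐ[ℚ] L, algebraMap ℚ L (V φ) * φ η =
      ∑ u : L ≃ₐ[ℚ] L, algebraMap ℚ L (V φ * n (act u⁻¹ φ)) * u θ := by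
    intro φ
    rw [hη, Finset.mul_sum]
    refine Finset.sum_congr rfl fun u _ => ?_
    rw [map_mul]
    ring
  rw [Finset.sum_congr rfl fun φ _ => h1 φ, Finset.sum_comm]
  refine Finset.sum_congr rfl fun u _ => ?_
  rw [← Finset.sum_mul, ← map_sum]
  congr 2
  let T : (K →ₐ[ℚ] L) ≃ (K →ₐ[ℚ] L) :=
    { toFun := act u
      invFun := act u⁻¹
      left_inv := fun φ => act_inv_act u φ
      right_inv := fun φ => act_act_inv u φ }
  rw [← Equiv.sum_comp T (fun φ => V φ * n (act u⁻¹ φ))]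
  refine Finset.sum_congr rfl fun φ _ => ?_
  change V (act u φ) * n (act u⁻¹ (act u φ)) = _
  rw [act_inv_act]
  ring

/-- If all these elements are zero, the function is zero. -/
theorem zero_of_eta (hne : Nonempty (K →ₐ[ℚ] L)) (n : (K →ₐ[ℚ] L) → ℚ)
    (h : ∀ θ : L, ∀ φ : K →ₐ[ℚ] L,
      ∑ u : L ≃ₐ[ℚ] L, algebraMap ℚ L (n (act u⁻¹ φ)) * u θ = 0) (φ : K →ₐ[ℚ] L) : n φ = 0 := by
  classical
  have hli : LinearIndependent L (fun g : L ≃ₐ[ℚ] L => ((g : L →* L) : L → L)) :=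
    (linearIndependent_monoidHom L L).comp (fun g : L ≃ₐ[ℚ] L => (g : L →* L)) (by
      intro g h hgh
      ext z
      exact DFunLike.congr_fun hgh z)
  have h1 := Fintype.linearIndependent_iff.1 hli (fun u => algebraMap ℚ L (n (act u⁻¹ φ))) (by
    funext θ
    rw [Finset.sum_apply]
    exact h θ φ) 1
  rw [inv_one] at h1
  exact (map_eq_zero _).1 h1

end core

/-- a finite Galois extension with the embeddings and the roots of a polynomial -/
theorem exists_common_root {I : Type*} [Finite I] (E : I → Type*) [∀ i, Field (E i)]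
    [∀ i, NumberField (E i)] (Q : ℚ[X]) (hQ : Q ≠ 0) :
    ∃ (L : Type) (_ : Field L) (_ : Algebra ℚ L) (_ : FiniteDimensional ℚ L) (_ : IsGalois ℚ L),
      (∀ {Ω : Type} [Field Ω] [Algebra ℚ Ω] (e : L →ₐ[ℚ] Ω) (i : I) (σ : E i →ₐ[ℚ] Ω),
        ∃ σ' : E i →ₐ[ℚ] L, e.comp σ' = σ) ∧
      ∀ {Ω : Type} [Field Ω] [Algebra ℚ Ω] (e : L →ₐ[ℚ] Ω) (b : Ω), aeval b Q = 0 →
        ∃ x : L, aeval x Q = 0 ∧ e x = b := by
  cases nonempty_fintype I
  let pb : ∀ i, PowerBasis ℚ (E i) := fun i => Field.powerBasisOfFiniteOfSeparable ℚ (E i)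
  let f : Option I → Polynomial ℚ := fun o => o.elim Q (fun i => minpoly ℚ (pb i).gen)
  have hint : ∀ i, IsIntegral ℚ (pb i).gen := fun i => (pb i).isIntegral_gen
  have hf0 : ∀ i, f i ≠ 0 := by
    rintro (_ | i)
    · exact hQ
    · exact minpoly.ne_zero (hint i)
  obtain ⟨L, iF, iA, iFin, iGal, hsplit⟩ := exists_splitting f hf0
  refine ⟨L, iF, iA, iFin, iGal, ?_, ?_⟩
  · intro Ω _ _ e i σ
    have h1 : Polynomial.aeval (σ (pb i).gen) (f (some i)) = 0 := by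
      change Polynomial.aeval (σ (pb i).gen) (minpoly ℚ (pb i).gen) = 0
      rw [Polynomial.aeval_algHom_apply, minpoly.aeval, map_zero]
    obtain ⟨x, hx0, hxy⟩ := exists_root_lift (hf0 (some i)) (hsplit (some i)) e _ h1
    have hx : aeval x (minpoly ℚ (pb i).gen) = 0 := hx0
    refine ⟨(pb i).lift x hx, ?_⟩
    apply (pb i).algHom_ext
    change e ((pb i).lift x hx (pb i).gen) = _
    rw [(pb i).lift_gen, hxy]
  · intro Ω _ _ e b hb
    exact exists_root_lift (hf0 none) (hsplit none) e b hb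

end Pool.Agent.U625.ST
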