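import Pool.Agent.W534.TateDefs

/-!
# Slope traces: definitions
-/

set_option autoImplicit false

universe u v

namespace Pool.Agent.U625.ST

open NumberField NumberField.IsCMField Pool.Agent.H914 Pool.Agent.W534 Polynomial

/-- The rational numbers `v σ` are the *slopes* of the conjugates `σ α` of the number `α` at the
place `ι` over `p`: the absolute value of `σ α` is `p ^ (- v σ)`. -/
def IsSlopes (p : ℕ) [Fact p.Prime] (ι : AlgebraicClosure ℚ →+* PadicAlgCl p) {K : Type} [Field K]
    (α : K) (v : (K →+* AlgebraicClosure ℚ) → ℚ) : Prop :=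
  ∀ σ : K →+* AlgebraicClosure ℚ, ‖ι (σ α)‖ = (p : ℝ) ^ (-(v σ : ℝ))

/-- The *slope trace* of an element `y` of `K`: the sum of its conjugates `σ y`, weighted by the
slopes `v σ`. -/
noncomputable def slopeTrace {K : Type} [Field K] [NumberField K]
    (v : (K →+* AlgebraicClosure ℚ) → ℚ) (y : K) : AlgebraicClosure ℚ :=
  ∑ σ : K →+* AlgebraicClosure ℚ, (v σ : AlgebraicClosure ℚ) * σ y

/-- Each `y i` is an imaginary element of the CM field `K i`. -/
def Imaginary {r : ℕ} {K : Fin r → Type} [∀ i, Field (K i)] [∀ i, NumberField (K i)]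
    [∀ i, IsCMField (K i)] (y : ∀ i, K i) : Prop :=
  ∀ i, complexConj (K i) (y i) = - y i

/-- The slope traces of the imaginary elements of the fields `K i` are *independent modulo `L`*: if
`y i` is an imaginary element of `K i` (`complexConj y = - y`) for each `i` and the sum of the slope
traces of the `y i` lies in the field `L`, then all the `y i` are zero. -/
def SlopeIndependent {r : ℕ} {K : Fin r → Type} [∀ i, Field (K i)] [∀ i, NumberField (K i)]
    [∀ i, IsCMField (K i)] (v : ∀ i, (K i →+* AlgebraicClosure ℚ) → ℚ)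
    (L : IntermediateField ℚ (AlgebraicClosure ℚ)) : Prop :=
  ∀ y : ∀ i, K i, Imaginary y → ∑ i, slopeTrace (v i) (y i) ∈ L → y = 0

/-- The eigenvalues of the Frobenius endomorphism of `U` on the cohomology are roots of a nonzero
rational polynomial for whose roots `β` the absolute value at the place `ι` is not changed by the
automorphisms which fix all elements of `L`. -/
def SlopesDetermined {k : Type u} [Field k] {𝒱 : VarClass k} {ops : CycleOps 𝒱}
    {W : WeilCohomology.{u, v} ops} {p : ℕ} [Fact p.Prime] (Φ : FrobSystem W p)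
    (ι : AlgebraicClosure ℚ →+* PadicAlgCl p) (L : IntermediateField ℚ (AlgebraicClosure ℚ))
    (U : 𝒱.Obj) : Prop :=
  ∃ Q : ℚ[X], Q ≠ 0 ∧ (∀ h : AlgebraicClosure ℚ ≃ₐ[ℚ] AlgebraicClosure ℚ, (∀ x ∈ L, h x = x) →
      ∀ β : AlgebraicClosure ℚ, aeval β Q = 0 → ‖ι (h β)‖ = ‖ι β‖) ∧
    ∀ ν : W.K, Module.End.HasEigenvalue (W.map (Φ.Fr U)).toLinearMap ν → aeval ν Q = 0

end Pool.Agent.U625.ST
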