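import Pool.Agent.U625.ST.Defs
import Pool.Agent.U625.ST.Core
import Pool.Agent.TH121.KT.Rel
import Pool.Agent.TH121.KT.Tors

/-!
# Multiplicative relations and slope traces
-/

set_option autoImplicit false
set_option linter.unusedSectionVars false

namespace Pool.Agent.U625.ST

open NumberField NumberField.IsCMField Pool.Agent.TH121.KT Pool.Agent.H485R3 Polynomial

noncomputable section

variable {r : ℕ} {K : Fin r → Type} [∀ i, Field (K i)] [∀ i, NumberField (K i)]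
  [∀ i, IsCMField (K i)]
variable {p : ℕ} [Fact p.Prime] {ι : Qb →+* PadicAlgCl p} {α : ∀ i, K i}
  {v : ∀ i, (K i →+* Qb) → ℚ}

theorem log_slope {K : Type} [Field K] {α : K} {v : (K →+* Qb) → ℚ} (hv : IsSlopes p ι α v)
    (σ : K →+* Qb) : Real.log ‖ι (σ α)‖ = - (v σ : ℝ) * Real.log p := by
  have hp : (0 : ℝ) < p := by exact_mod_cast (Fact.out : p.Prime).pos
  rw [hv σ, Real.log_rpow hp]

theorem slope_cj {K : Type} [Field K] [NumberField K] [IsCMField K] {α : K}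
    {v : (K →+* Qb) → ℚ} (hv : IsSlopes p ι α v) (hu : ∀ φ : K →+* ℂ, ‖φ α‖ = 1)
    (σ : K →+* Qb) : v (cj σ) = - v σ := by
  have hlog : 0 < Real.log p :=
    Real.log_pos (by exact_mod_cast (Fact.out : p.Prime).one_lt)
  have h1 := log_slope hv (cj σ)
  rw [cj_norm hu, Real.log_inv, log_slope hv] at h1
  have h2 : (-(v σ : ℝ)) = (v (cj σ) : ℝ) := by
    have h3 : ((v (cj σ) : ℝ) - (-(v σ : ℝ))) * Real.log p = 0 := by linarith
    have h4 := (mul_eq_zero.1 h3).resolve_right hlog.ne'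
    linarith
  exact_mod_cast h2.symm

/-- **Relations are trivial.** -/
theorem balanced_slopes {N : (Σ i, (K i →+* Qb)) → ℕ} {w : Fin r → ℕ} {W : ℤ} {β : Qb} {x₀ : ℚ}
    (hx₀ : x₀ ≠ 0) (hβ0 : β ≠ 0)
    (hrel : ∏ x : Σ i, (K i →+* Qb), (x.2 (α x.1)) ^ (w x.1 * N x) = β ^ W * (x₀ : Qb))
    (hw : ∀ i, 0 < w i) {L : IntermediateField ℚ Qb} {Q : ℚ[X]}
    (hL : SlopesFixed p ι L Q) (hβ : aeval β Q = 0)
    (hu : ∀ i, ∀ φ : K i →+* ℂ, ‖φ (α i)‖ = 1) (hv : ∀ i, IsSlopes p ι (α i) (v i))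
    (hind : SlopeIndependent v L) (x : Σ i, (K i →+* Qb)) : N x = N (bar x) := by
  classical
  have hlog : 0 < Real.log p :=
    Real.log_pos (by exact_mod_cast (Fact.out : p.Prime).one_lt)
  -- the slopes of the relation
  have hsum : ∀ g : GQ, - (Real.log p) * ((∑ i, (w i : ℚ) * ∑ σ : K i →+* Qb,
      (N ⟨i, σ⟩ : ℚ) * v i (act g σ) : ℚ) : ℝ) =
      W * Real.log ‖ι (g β)‖ + Real.log ‖ι (x₀ : Qb)‖ := by
    intro g
    have h1 := congrArg (fun z => Real.log ‖ι (g z)‖) hrel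
    simp only [map_prod, map_pow, norm_prod, norm_pow, map_mul, map_zpow₀, norm_mul, norm_zpow,
      map_ratCast] at h1
    rw [Real.log_mul, Real.log_zpow, Real.log_prod] at h1
    rotate_left
    · intro x _
      exact pow_ne_zero _ (norm_pos' (hu x.1) (act g x.2)).ne'
    · refine zpow_ne_zero _ ?_
      rw [norm_ne_zero_iff, ne_eq, map_eq_zero, map_eq_zero]
      exact hβ0
    · rw [norm_ne_zero_iff]
      exact Rat.cast_ne_zero.2 hx₀
    rw [map_ratCast, ← h1, Fintype.sum_sigma]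
    push_cast
    rw [Finset.mul_sum]
    refine Finset.sum_congr rfl fun i _ => ?_
    rw [Finset.mul_sum, Finset.mul_sum]
    refine Finset.sum_congr rfl fun σ _ => ?_
    have h2 : Real.log ‖ι (g (σ (α i)))‖ = - (v i (act g σ) : ℝ) * Real.log p :=
      log_slope (hv i) (act g σ)
    rw [Real.log_pow, h2]
    push_cast
    ring
  let F : GQ → ℚ := fun g => ∑ i, (w i : ℚ) * ∑ σ : K i →+* Qb, (N ⟨i, σ⟩ : ℚ) * v i (act g σ)
  have hF : ∀ h : GQ, (∀ x ∈ L, h x = x) → ∀ g, F (h * g) = F g := by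
    intro h hh g
    have hgβ : aeval (g β) Q = 0 := by
      rw [Polynomial.aeval_algHom_apply g β Q, hβ, map_zero]
    have h1 := hsum g
    have h2 := hsum (h * g)
    have h3 : ‖ι ((h * g) β)‖ = ‖ι (g β)‖ := hL h hh (g β) hgβ
    rw [h3, ← h1] at h2
    have h4 : (F (h * g) : ℝ) = (F g : ℝ) := by
      have h5 := mul_left_cancel₀ (neg_ne_zero.2 hlog.ne') h2
      exact h5
    exact_mod_cast h4
  -- a finite Galois extension
  obtain ⟨L₀, _, _, _, _, hlift, -⟩ := exists_common_root K (Polynomial.X : ℚ[X])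
    Polynomial.X_ne_zero
  let j : L₀ →ₐ[ℚ] Qb := IsAlgClosed.lift
  let ιC : L₀ →ₐ[ℚ] ℂ := IsAlgClosed.lift
  obtain ⟨c, hc⟩ := exists_conj ιC
  have hcφ : ∀ (i : Fin r) (φ : K i →ₐ[ℚ] L₀) (z : K i), c (φ z) = φ (complexConj (K i) z) := by
    intro i φ z
    apply ιC.toRingHom.injective
    change ιC (c (φ z)) = (ιC.comp φ) (complexConj (K i) z)
    rw [← hc, ← Hodge.conjEmb_eq]
    rfl
  let em : ∀ i, (K i →ₐ[ℚ] L₀) → (K i →+* Qb) := fun i φ => (j.comp φ).toRingHom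
  have hem : ∀ i, Function.Bijective (em i) := by
    intro i
    constructor
    · intro φ φ' h
      ext z
      apply j.toRingHom.injective
      exact RingHom.congr_fun h z
    · intro σ
      obtain ⟨φ, hφ⟩ := hlift j i σ.toRatAlgHom
      refine ⟨φ, ?_⟩
      ext z
      exact DFunLike.congr_fun hφ z
  let eq : ∀ i, (K i →ₐ[ℚ] L₀) ≃ (K i →+* Qb) := fun i => Equiv.ofBijective (em i) (hem i)
  have hrestr : ∀ g : GQ, ∃ u : L₀ ≃ₐ[ℚ] L₀, ∀ z, g (j z) = j (u z) := by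
    intro g
    exact exists_gal j ((g : Qb →ₐ[ℚ] Qb).comp j)
  have hext : ∀ u : L₀ ≃ₐ[ℚ] L₀, ∃ g : GQ, ∀ z, g (j z) = j (u z) := by
    intro u
    let _ : Algebra L₀ Qb := j.toRingHom.toAlgebra
    have _ : IsScalarTower ℚ L₀ Qb := IsScalarTower.of_algebraMap_eq fun x => (j.commutes x).symm
    exact ⟨AlgEquiv.liftNormal u Qb, fun z => AlgEquiv.liftNormal_commutes u Qb z⟩
  have hact : ∀ (g : GQ) (u : L₀ ≃ₐ[ℚ] L₀), (∀ z, g (j z) = j (u z)) → ∀ (i : Fin r)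
      (φ : K i →ₐ[ℚ] L₀), act g (em i φ) = em i (Hodge.act u φ) := by
    intro g u h i φ
    ext z
    exact h (φ z)
  have hcjem : ∀ (i : Fin r) (φ : K i →ₐ[ℚ] L₀), cj (em i φ) = em i (Hodge.act c φ) := by
    intro i φ
    ext z
    change j (φ (complexConj (K i) z)) = j (c (φ z))
    rw [hcφ]
  let V : ∀ i, (K i →ₐ[ℚ] L₀) → ℚ := fun i φ => v i (em i φ)
  let n : ∀ i, (K i →ₐ[ℚ] L₀) → ℚ := fun i φ =>
    (N ⟨i, em i φ⟩ : ℚ) - (N ⟨i, cj (em i φ)⟩ : ℚ)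
  have hodd : ∀ i φ, n i (Hodge.act c φ) = - n i φ := by
    intro i φ
    simp only [n]
    rw [← hcjem, TH121.KT.cj_cj]
    ring
  -- the sum over the embeddings in the finite extension
  have hF₀ : ∀ (g : GQ) (u : L₀ ≃ₐ[ℚ] L₀), (∀ z, g (j z) = j (u z)) →
      ∑ i, (w i : ℚ) * ∑ φ : K i →ₐ[ℚ] L₀, n i φ * V i (Hodge.act u φ) = 2 * F g := by
    intro g u hgu
    simp only [F]
    rw [Finset.mul_sum]
    refine Finset.sum_congr rfl fun i _ => ?_
    have h1 : ∑ σ : K i →+* Qb, (N ⟨i, σ⟩ : ℚ) * v i (act g σ) =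
        ∑ φ : K i →ₐ[ℚ] L₀, (N ⟨i, em i φ⟩ : ℚ) * V i (Hodge.act u φ) := by
      refine (Fintype.sum_equiv (eq i) _ _ fun φ => ?_).symm
      change _ = (N ⟨i, em i φ⟩ : ℚ) * v i (act g (em i φ))
      rw [hact g u hgu]
    have h2 : ∑ σ : K i →+* Qb, (N ⟨i, σ⟩ : ℚ) * v i (act g σ) =
        - ∑ φ : K i →ₐ[ℚ] L₀, (N ⟨i, cj (em i φ)⟩ : ℚ) * V i (Hodge.act u φ) := by
      rw [← Finset.sum_neg_distrib]
      refine (Fintype.sum_equiv ((eq i).trans ⟨cj, cj, TH121.KT.cj_cj, TH121.KT.cj_cj⟩) _ _ fun φ => ?_).symm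
      change _ = (N ⟨i, cj (em i φ)⟩ : ℚ) * v i (act g (cj (em i φ)))
      rw [act_cj, slope_cj (hv i) (hu i), hact g u hgu]
      ring
    have h3 : ∑ φ : K i →ₐ[ℚ] L₀, n i φ * V i (Hodge.act u φ) =
        2 * ∑ σ : K i →+* Qb, (N ⟨i, σ⟩ : ℚ) * v i (act g σ) := by
      rw [two_mul]
      nth_rewrite 1 [h1]
      rw [h2, ← sub_eq_add_neg, ← Finset.sum_sub_distrib]
      refine Finset.sum_congr rfl fun φ _ => ?_
      simp only [n]
      ring
    rw [h3]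
    ring
  let R : (L₀ ≃ₐ[ℚ] L₀) → ℚ := fun u =>
    ∑ i, (w i : ℚ) * ∑ φ : K i →ₐ[ℚ] L₀, n i φ * V i (Hodge.act u φ)
  have hR : ∀ (h : GQ) (h₀ : L₀ ≃ₐ[ℚ] L₀), (∀ x ∈ L, h x = x) → (∀ z, h (j z) = j (h₀ z)) →
      ∀ u, R (h₀ * u) = R u := by
    intro h h₀ hh hh₀ u
    obtain ⟨g, hg⟩ := hext u
    have h1 : R u = 2 * F g := hF₀ g u hg
    have h2 : R (h₀ * u) = 2 * F (h * g) := hF₀ (h * g) (h₀ * u) (fun z => by
      change h (g (j z)) = j (h₀ (u z))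
      rw [hg, hh₀])
    rw [h1, h2, hF h hh]
  -- the elements
  have key : ∀ i, Nonempty (K i →ₐ[ℚ] L₀) := by
    intro i
    obtain ⟨σ⟩ : Nonempty (K i →+* Qb) := by
      obtain ⟨ψ⟩ : Nonempty (K i →ₐ[ℚ] Qb) := ⟨IsAlgClosed.lift⟩
      exact ⟨ψ.toRingHom⟩
    exact ⟨(eq i).symm σ⟩
  choose η hη1 hη2 using fun (i : Fin r) (θ : L₀) => exists_eta c (hcφ i) (key i) (n i)
    (hodd i) θ
  have hzero : ∀ i θ, η i θ = 0 := by
    intro i θ
    have h1 := congrFun (hind (fun i => (w i : K i) * η i θ) ?_ ?_) i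
    · have h2 : (w i : K i) ≠ 0 := Nat.cast_ne_zero.2 (hw i).ne'
      have h3 : (w i : K i) * η i θ = 0 := h1
      exact (mul_eq_zero.1 h3).resolve_left h2
    · intro i
      rw [map_mul, map_natCast, hη1]
      ring
    · have h2 : ∑ i, slopeTrace (v i) ((w i : K i) * η i θ) =
          j (∑ u : L₀ ≃ₐ[ℚ] L₀, algebraMap ℚ L₀ (R u) * u θ) := by
        have h3 : ∀ i, slopeTrace (v i) ((w i : K i) * η i θ) =
            j (algebraMap ℚ L₀ (w i) * ∑ φ : K i →ₐ[ℚ] L₀, algebraMap ℚ L₀ (V i φ) * φ (η i θ)) := by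
          intro i
          unfold slopeTrace
          rw [map_mul, map_sum, Finset.mul_sum]
          refine (Fintype.sum_equiv (eq i) _ _ fun φ => ?_).symm
          change j (algebraMap ℚ L₀ (w i)) * j (algebraMap ℚ L₀ (V i φ) * φ (η i θ)) =
            (v i (em i φ) : Qb) * j (φ ((w i : K i) * η i θ))
          simp only [map_mul, map_natCast, AlgHom.commutes, V, eq_ratCast, map_ratCast]
          ring
        rw [Finset.sum_congr rfl fun i _ => h3 i, ← map_sum]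
        congr 1
        have h4 : ∀ i, algebraMap ℚ L₀ (w i) * ∑ φ : K i →ₐ[ℚ] L₀,
            algebraMap ℚ L₀ (V i φ) * φ (η i θ) = ∑ u : L₀ ≃ₐ[ℚ] L₀,
            algebraMap ℚ L₀ ((w i : ℚ) * ∑ φ : K i →ₐ[ℚ] L₀, n i φ * V i (Hodge.act u φ)) * u θ := by
          intro i
          rw [trace_eta (n i) (V i) θ (η i θ) (hη2 i θ), Finset.mul_sum]
          refine Finset.sum_congr rfl fun u _ => ?_
          rw [map_mul (algebraMap ℚ L₀)]
          ring
        rw [Finset.sum_congr rfl fun i _ => h4 i, Finset.sum_comm]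
        refine Finset.sum_congr rfl fun u _ => ?_
        rw [← Finset.sum_mul, ← map_sum]
      rw [h2]
      refine mem_of_fixed L fun h hh => ?_
      obtain ⟨h₀, hh₀⟩ := hrestr h
      rw [hh₀, map_sum]
      congr 1
      rw [← Equiv.sum_comp (Equiv.mulLeft h₀)
        (fun u : L₀ ≃ₐ[ℚ] L₀ => algebraMap ℚ L₀ (R u) * u θ)]
      refine Finset.sum_congr rfl fun u _ => ?_
      rw [map_mul, AlgEquiv.commutes, Equiv.coe_mulLeft, hR h h₀ hh hh₀, AlgEquiv.mul_apply]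
  obtain ⟨i, σ⟩ := x
  obtain ⟨φ, rfl⟩ := (hem i).2 σ
  have h1 := zero_of_eta (key i) (n i) (fun θ φ => by
    rw [← hη2 i θ φ, hzero, map_zero]) φ
  simp only [n] at h1
  have h2 : (N ⟨i, em i φ⟩ : ℚ) = (N ⟨i, cj (em i φ)⟩ : ℚ) := by linarith
  change N ⟨i, em i φ⟩ = N ⟨i, cj (em i φ)⟩
  exact_mod_cast h2

/-- **Balance.** -/
theorem balanced_of_slopes {Ω : Type*} [Field Ω] [CharZero Ω] [IsAlgClosed Ω]
    (n : ∀ i, (K i →+* Ω) → ℕ) {w : Fin r → ℕ} (hw : ∀ i, 0 < w i) {W : ℕ} {β : Ω} {x₀ : ℚ}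
    (hx₀ : x₀ ≠ 0) (hβ0 : β ≠ 0) (hrel : letterProd α w n * β ^ W = (x₀ : Ω))
    {Q : ℚ[X]} (hQ : Q ≠ 0) (hβ : aeval β Q = 0) {L : IntermediateField ℚ Qb}
    (hL : SlopesFixed p ι L Q) (hu : ∀ i, ∀ φ : K i →+* ℂ, ‖φ (α i)‖ = 1)
    (hv : ∀ i, IsSlopes p ι (α i) (v i)) (hind : SlopeIndependent v L) (i : Fin r)
    (σ : K i →+* Ω) : n i σ = n i (cj σ) := by
  classical
  let τ : Qb →+* Ω := (IsAlgClosed.lift : Qb →ₐ[ℚ] Ω).toRingHom
  obtain ⟨β', hβ', hτβ⟩ := exists_root τ hQ hβ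
  have hbij : ∀ i, Function.Bijective (fun ρ : K i →+* Qb => τ.comp ρ) := by
    intro i
    constructor
    · intro ρ ρ' h
      ext x
      exact τ.injective (RingHom.congr_fun h x)
    · intro σ
      obtain ⟨ρ, hρ⟩ := exists_lift τ σ
      exact ⟨ρ, hρ⟩
  let N : (Σ i, (K i →+* Qb)) → ℕ := fun x => n x.1 (τ.comp x.2)
  have hprod : letterProd α w n =
      τ (∏ x : Σ i, (K i →+* Qb), (x.2 (α x.1)) ^ (w x.1 * N x)) := by
    rw [map_prod, Fintype.prod_sigma]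
    unfold letterProd
    refine Finset.prod_congr rfl fun i _ => ?_
    refine (Fintype.prod_equiv (Equiv.ofBijective _ (hbij i)) _ _ fun ρ => ?_).symm
    rw [map_pow]
    rfl
  have hβ0' : β' ≠ 0 := by
    rintro rfl
    rw [map_zero] at hτβ
    exact hβ0 hτβ.symm
  have hbal := balanced_slopes (N := N) (w := w) (W := -(W : ℤ)) (β := β') (x₀ := x₀) hx₀ hβ0'
    ?_ hw hL hβ' hu hv hind
  · obtain ⟨ρ, rfl⟩ := (hbij i).2 σ
    exact hbal ⟨i, ρ⟩
  · apply τ.injective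
    rw [← hprod, map_mul, map_zpow₀, hτβ, map_ratCast, ← hrel, zpow_neg, zpow_natCast]
    field_simp

end

end Pool.Agent.U625.ST
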