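import Pool.Agent.N179.HT.Mix
import Pool.Agent.TH121.KT.GeoMain
import Pool.Agent.U625.ST.Rel

/-!
# The conjecture of Hodge type and independent slope traces
-/

set_option autoImplicit false
set_option linter.unusedSectionVars false

open CategoryTheory AlgebraicGeometry NumberField

universe u v

namespace Pool.Agent.U625.ST

open Pool.Agent.H914 Pool.Agent.H914.VarClass Pool.Agent.H914.VarClass.Obj
  Pool.Agent.H914.WeilCohomology Pool.Agent.H281R3.HT Pool.Agent.W552 Pool.Agent.W534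
  Pool.Agent.W458.RK Pool.Agent.W458.MF Pool.Agent.TH132.A Pool.Agent.W536.RR
  Pool.Agent.TH121.KT Pool.Agent.W517.K3 Pool.Agent.Y138.KC Pool.Agent.W290.MF
  Pool.Agent.Y138.KH Pool.Agent.N179.TL Pool.Agent.N179.HT Pool.Agent.H485R3

section noRel

variable {k : Type u} [Field k] {𝒱 : VarClass k} {ops : CycleOps 𝒱}
  {W : WeilCohomology.{u, v} ops} {p : ℕ} [Fact p.Prime] {Φ : FrobSystem W p}
  {r : ℕ} {X : Fin r → 𝒱.Obj} {e : Fin r → ℕ} {E : Fin r → Type} [∀ i, Field (E i)]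
  [∀ i, NumberField (E i)] [∀ i, IsCMField (E i)] {α : ∀ i, E i}
  {ι : Qb →+* PadicAlgCl p} {w : ∀ i, (E i →+* Qb) → ℚ} {L : IntermediateField ℚ Qb}

theorem noRel_slopes [IsAlgClosed W.K] (he : ∀ i, 0 < e i)
    (hu : ∀ i, ∀ φ : E i →+* ℂ, ‖φ (α i)‖ = 1) (hw : ∀ i, IsSlopes p ι (α i) (w i))
    (hind : SlopeIndependent w L) (n : Fin r → ℕ) :
    NoRelation Φ (fun _ ν => InL p ι L ν) X e α n := by
  intro m ν hm hν N' hN' D N hN hrel i σ
  obtain ⟨Q, ν₀, t, ht, hQ0, hLQ, hν₀, rfl⟩ := hν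
  have hp : p.Prime := Fact.out
  have hp0 : (p : W.K) ≠ 0 := by exact_mod_cast hp.ne_zero
  have hpq : (p : ℚ) ≠ 0 := by exact_mod_cast hp.ne_zero
  have hP : 0 < ∏ j, (e j * Φ.e (X j)) :=
    Finset.prod_pos fun j _ => Nat.mul_pos (he j) (Φ.e_pos _)
  have hν0 : ν₀ ≠ 0 := by
    rintro rfl
    rw [zero_pow ht.ne', zero_pow (Nat.mul_pos hN hP).ne', mul_zero] at hrel
    exact zpow_ne_zero _ hp0 hrel.symm
  refine balanced_of_slopes (W := t * (N * ∏ j, (e j * Φ.e (X j)))) (β := ν₀)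
    (x₀ := (p : ℚ) ^ (m * D * (N * ∏ j, (e j * Φ.e (X j)) : ℕ))) N'
    (w := fun i => N * (m * ∏ j ∈ Finset.univ.erase i, (e j * Φ.e (X j)))) (fun i => ?_)
    (zpow_ne_zero _ hpq) hν0 ?_ hQ0 hν₀ hLQ hu hw hind i σ
  · exact Nat.mul_pos hN (Nat.mul_pos hm (Finset.prod_pos fun j _ =>
      Nat.mul_pos (he j) (Φ.e_pos _)))
  · rw [pow_mul, hrel]
    push_cast
    rfl

theorem noRel_one [IsAlgClosed W.K] (he : ∀ i, 0 < e i)
    (hu : ∀ i, ∀ φ : E i →+* ℂ, ‖φ (α i)‖ = 1) (hw : ∀ i, IsSlopes p ι (α i) (w i))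
    (hind : SlopeIndependent w L) (n : Fin r → ℕ) :
    NoRelation Φ (fun _ ν => ν = 1) X e α n := by
  intro m ν hm hν
  exact noRel_slopes he hu hw hind n m ν hm (by
    rw [show ν = 1 from hν]
    exact inL_one L)

end noRel

/-- the hypotheses -/
structure Data {k : Type u} [Field k] {𝒱 : VarClass k} {ops : CycleOps 𝒱}
    {W : WeilCohomology.{u, v} ops} {p : ℕ} [Fact p.Prime] (Φ : FrobSystem W p)
    {r : ℕ} (X : Fin r → 𝒱.Obj) (e : Fin r → ℕ) {E : Fin r → Type} [∀ i, Field (E i)]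
    [∀ i, NumberField (E i)] [∀ i, IsCMField (E i)] (α : ∀ i, E i)
    (ι : Qb →+* PadicAlgCl p) (w : ∀ i, (E i →+* Qb) → ℚ) (L : IntermediateField ℚ Qb)
    {n : ℕ} (P : Fin (n + 1) → Polarized 𝒱) (idx : Fin (n + 1) → Option (Fin r)) : Prop where
  hX : ∀ i, HasWeilNumber Φ (X i) (e i) (α i)
  hu : ∀ i, ∀ φ : E i →+* ℂ, ‖φ (α i)‖ = 1
  heven : ∀ i, Even (X i).dim
  hw : ∀ i, IsSlopes p ι (α i) (w i)
  hind : SlopeIndependent w L
  hP : ∀ a, IsFactor W X (idx a) (P a).X
  hD : ∀ a, (P a).X.IsCyc 1 (P a).D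
  hdeg : ∀ a, 0 < (P a).X.V.degCycle (divPow ops (P a).D (P a).X.dim (P a).X.V.fundCycle)
  hHL : ∀ a, HardLefschetz W (P a).X (P a).D
  hH0 : ∀ a, idx a = none → HodgeType W (P a).X (P a).D
  hH2 : ∀ a b i, idx a = some i → idx b = some i →
    HodgeType W ((P a).prod ops (P b)).X ((P a).prod ops (P b)).D

variable {k : Type u} [Field k] {𝒱 : VarClass k} {ops : CycleOps 𝒱}
  {W : WeilCohomology.{u, v} ops} {p : ℕ} [Fact p.Prime] {Φ : FrobSystem W p}
  {r : ℕ} {X : Fin r → 𝒱.Obj} {e : Fin r → ℕ} {E : Fin r → Type} [∀ i, Field (E i)]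
  [∀ i, NumberField (E i)] [∀ i, IsCMField (E i)] {α : ∀ i, E i}
  {ι : Qb →+* PadicAlgCl p} {w : ∀ i, (E i →+* Qb) → ℚ} {L : IntermediateField ℚ Qb}
  {n : ℕ} {P : Fin (n + 1) → Polarized 𝒱} {idx : Fin (n + 1) → Option (Fin r)}

theorem Data.noRel [IsAlgClosed W.K] (S : Data Φ X e α ι w L P idx) (m : Fin r → ℕ) :
    NoRelation Φ (fun _ ν => ν = 1) X e α m :=
  noRel_one (fun i => (S.hX i).pos) S.hu S.hw S.hind m

theorem Data.tate_pair [IsAlgClosed W.K] (S : Data Φ X e α ι w L P idx) (a b : Fin (n + 1))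
    (c : ℕ) : TateIn Φ ((P a).X.prod (P b).X) c := by
  have hTT : TateTimesL Φ (fun _ ν => ν = 1) ((P a).X.prod (P b).X) :=
    tateTimesL_products (Fact.out : p.Prime) S.hX S.hu S.heven
      (IsProductOfCopies.prod (S.hP a).copies (S.hP b).copies) (S.noRel _)
  have h1 := (tateIn_prod_lev (Fact.out : p.Prime).one_lt hTT (fun _ _ => rfl)
    (fun _ ν n _ h => by rw [show ν = 1 from h, one_pow])).1 c
  intro y hy
  obtain ⟨s, hs, h⟩ := IsTate.mem Φ hy
  exact h1 s hs h

theorem Data.tate_one [IsAlgClosed W.K] (S : Data Φ X e α ι w L P idx) (a : Fin (n + 1)) :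
    HodgeType W (P a).X (P a).D := by
  rcases hi : idx a with _ | i
  · exact S.hH0 a hi
  · exact H914.hodge_of_square (S.hD a) (S.hdeg a) (S.hH2 a a i hi hi)

/-- The conjecture of Hodge type for the products of two factors with different indices. -/
theorem Data.hodge_ne [IsAlgClosed W.K] (S : Data Φ X e α ι w L P idx) {a b : Fin (n + 1)}
    (hab : ∀ j, idx b = some j → idx a ≠ some j) :
    HodgeType W ((P a).prod ops (P b)).X ((P a).prod ops (P b)).D := by
  have hp := (Fact.out : p.Prime)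
  have hpK : (p : W.K) ≠ 0 := Nat.cast_ne_zero.2 hp.ne_zero
  have hN1 : NoRelation Φ (fun _ ν => ν = 1) X e α (cp (idx a)) := S.noRel _
  have hNR : NoRelation Φ (PY Φ (P b).X) X e α (cp (idx a)) := by
    intro m ν hm hν N' hN' D N hN hrel i σ
    rcases hν with rfl | ⟨t, ν₀, ht, rfl, rfl, d, hd⟩
    · exact hN1 m 1 hm rfl N' hN' D N hN hrel i σ
    rcases hj : idx b with _ | j
    · have h1 := S.hP b
      rw [hj] at h1
      have h2 : ∀ x : W.H (P b).X, x ∈ algSpan W (P b).X := fun x => by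
        rw [show algSpan W (P b).X = ⊤ from h1]
        trivial
      have h3 := alg_iter h2 hd
      rw [mul_one] at h3
      exact noRel_tate hpK hN1 hm rfl h3 N' hN' D N hN hrel i σ
    · have h1 := S.hP b
      rw [hj] at h1
      have h2 : (P b).X = X j := h1
      have haj := hab j hj
      have hN2 : NoRelation Φ (fun _ ν => ν = 1) X e α (cp (idx a) + Pi.single j 1) := S.noRel _
      rw [h2] at hd hrel hm
      rcases cases_iter (S.hX j) hd with h3 | ⟨τ, h3⟩
      · rw [mul_one] at h3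
        exact noRel_tate hpK hN1 hm rfl h3 N' hN' D N hN hrel i σ
      · rw [mul_one] at h3
        refine (noRel_letter hpK ?_ (S.heven j) hN2 hm rfl h3 N' hN' D N hN hrel).elim
        rcases hi : idx a with _ | l
        · rfl
        · rw [hi] at haj
          change (Pi.single l 1 : Fin r → ℕ) j = 0
          exact Pi.single_eq_of_ne (fun h => haj (by rw [h])) _
  have hTT : TateTimesL Φ (PY Φ (P b).X) (P a).X :=
    tateTimesL_products hp S.hX S.hu S.heven (S.hP a).copies hNR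
  obtain ⟨f, Ff, -⟩ := exists_lw (S.hD a) (S.hHL a)
  exact (hodge_timesL hp.one_lt hTT (fun _ _ => Or.inl rfl) PY_pow ⟨f, Ff⟩
    (one_ne_of_deg (S.hD a) (S.hdeg a)) (S.tate_one a) (fun _ => PY_self) (S.hD b)
    (S.hHL b)).2 (S.tate_one b)

theorem Data.hodge_pair [IsAlgClosed W.K] (S : Data Φ X e α ι w L P idx) (a b : Fin (n + 1)) :
    HodgeType W ((P a).prod ops (P b)).X ((P a).prod ops (P b)).D := by
  by_cases hab : ∃ j, idx b = some j ∧ idx a = some j
  · obtain ⟨j, hb, ha⟩ := hab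
    exact S.hH2 a b j ha hb
  · push Not at hab
    exact S.hodge_ne hab

theorem Data.diag [IsAlgClosed W.K] (S : Data Φ X e α ι w L P idx) (a : Fin (n + 1)) (s : ℕ) :
    Diagonalizable W (W534.iter (Φ.Fr (P a).X) s) := by
  have h1 := S.hP a
  rcases hi : idx a with _ | i
  · rw [hi] at h1
    exact diag_iter s (diag_of_alg fun x => by
      rw [show algSpan W (P a).X = ⊤ from h1]
      trivial)
  · rw [hi] at h1
    have h2 : (P a).X = X i := h1
    rw [h2]
    exact diag_iter s (diag_of_weilNumber (S.hX i))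

theorem Data.hodge_nest [IsAlgClosed W.K] (S : Data Φ X e α ι w L P idx) :
    HodgeType W (nest ops n P).X (nest ops n P).D := by
  classical
  have hp := (Fact.out : p.Prime)
  have hpK : (p : W.K) ≠ 0 := Nat.cast_ne_zero.2 hp.ne_zero
  set M : ℕ := (∏ i, Φ.e (X i)) * ∏ a, Φ.e (P a).X with hMdef
  have hM : 0 < M := Nat.mul_pos (Finset.prod_pos fun i _ => Φ.e_pos _)
    (Finset.prod_pos fun a _ => Φ.e_pos _)
  have hrr : ∀ i, ∃ rr, Φ.e (X i) * rr = M := by
    intro i
    obtain ⟨c, hc⟩ := Finset.dvd_prod_of_mem (fun i => Φ.e (X i)) (Finset.mem_univ i)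
    exact ⟨c * ∏ a, Φ.e (P a).X, by rw [hMdef, hc]; ring⟩
  have hss : ∀ a, ∃ s, Φ.e (P a).X * s = M := by
    intro a
    obtain ⟨c, hc⟩ := Finset.dvd_prod_of_mem (fun a => Φ.e (P a).X) (Finset.mem_univ a)
    exact ⟨(∏ i, Φ.e (X i)) * c, by rw [hMdef, hc]; ring⟩
  choose rr hr using hrr
  choose s hs using hss
  have hq : (p ^ M : ℕ) ≠ 0 := pow_ne_zero _ hp.ne_zero
  have hqK : ((p ^ M : ℕ) : W.K) ≠ 0 := Nat.cast_ne_zero.2 hq
  refine hodge_fam (f := fun a => W534.iter (Φ.Fr (P a).X) (s a)) (q := p ^ M) hq S.hD S.hdeg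
    S.hHL (fun a => S.diag a (s a))
    (fun a => frob_nest hM 0 (fun _ => P a) (fun _ => s a) (fun _ => hs a))
    (frob_nest hM n P s hs)
    (fun a b => tate_pair_gen hM (hs a) (hs b) (S.tate_pair a b)) ?_ S.hodge_pair
  intro x hx hrel
  -- the tags
  have htag : ∀ a, ∃ t : Tag E W.K, (t = none → IsTateRel (p ^ M) ({x a} : Multiset _)) ∧
      ∀ i σ, t = some ⟨i, σ⟩ → idx a = some i ∧
        IsLet (p ^ M) (X i).dim (e i) (rr i) (α i) σ (x a) := by
    intro a
    have h1 := S.hP a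
    have h2 := hx a
    rcases hi : idx a with _ | i
    · rw [hi] at h1
      refine ⟨none, fun _ => ?_, fun i σ h => by simp at h⟩
      have h3 := alg_iter (fun x => by
        rw [show algSpan W (P a).X = ⊤ from h1]
        trivial) h2
      rwa [hs a] at h3
    · rw [hi] at h1
      have h4 : (P a).X = X i := h1
      have h5 : s a = rr i := by
        have h6 := (hs a).trans (hr i).symm
        rw [h4] at h6
        exact Nat.eq_of_mul_eq_mul_left (Φ.e_pos _) h6
      beta_reduce at h2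
      rw [h4] at h2
      rcases cases_iter (S.hX i) h2 with h3 | ⟨τ, h3⟩
      · rw [h5, hr i] at h3
        exact ⟨none, fun _ => h3, fun i σ h => by simp at h⟩
      · rw [h5, hr i] at h3
        refine ⟨some ⟨i, τ⟩, fun h => by simp at h, fun j σ h => ?_⟩
        rw [Option.some.injEq, Sigma.mk.injEq] at h
        obtain ⟨rfl, h⟩ := h
        rw [heq_eq_eq] at h
        subst h
        exact ⟨rfl, h3⟩
  choose t ht0 ht1 using htag
  have hmap : (((List.finRange (n + 1) : List (Fin (n + 1))) : Multiset (Fin (n + 1))).map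
      fun a => (t a, x a)).map Prod.snd =
      ((List.finRange (n + 1) : List (Fin (n + 1))) : Multiset (Fin (n + 1))).map x := by
    rw [Multiset.map_map]
    rfl
  have hNR := S.noRel (copiesO idx)
  rw [← hmap] at hrel ⊢
  refine pairGen (α := α) (n := copiesO idx) (D := fun i => (X i).dim) (e := e)
    (a := fun i => Φ.e (X i)) (rr := rr) (M := M) S.hu hqK
    (fun i => (S.hX i).pos) (fun i => Φ.e_pos _) hr ?_ _ _ rfl ?_ ?_ ?_ hrel
  · intro N' hN' N hN h1 i σ
    refine hNR M 1 hM rfl N' hN' 0 N hN ?_ i σ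
    rw [h1, one_pow, mul_one, mul_zero, zero_mul, zpow_zero]
  · intro y hy
    obtain ⟨a, -, rfl⟩ := Multiset.mem_map.1 hy
    exact ht0 a
  · intro y hy i σ h
    obtain ⟨a, -, rfl⟩ := Multiset.mem_map.1 hy
    exact (ht1 a i σ h).2
  · intro i
    rw [Multiset.map_map]
    have h1 : ∀ σ : E i →+* W.K, Multiset.count (some ⟨i, σ⟩)
        (((List.finRange (n + 1) : List (Fin (n + 1))) : Multiset (Fin (n + 1))).map
          (Prod.fst ∘ fun a => (t a, x a))) =
        (Finset.univ.filter fun a => some ⟨i, σ⟩ = t a).card := by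
      intro σ
      rw [Multiset.count_map]
      rfl
    rw [Finset.sum_congr rfl fun σ _ => h1 σ, ← Finset.card_biUnion, copiesO]
    · refine Finset.card_le_card fun a ha => ?_
      rw [Finset.mem_biUnion] at ha
      obtain ⟨σ, -, hσ⟩ := ha
      rw [Finset.mem_filter] at hσ ⊢
      exact ⟨Finset.mem_univ _, (ht1 a i σ hσ.2.symm).1⟩
    · intro σ _ τ _ hστ
      rw [Function.onFun, Finset.disjoint_left]
      intro a h2 h3
      rw [Finset.mem_filter] at h2 h3
      have h4 := h2.2.trans h3.2.symm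
      rw [Option.some.injEq, Sigma.mk.injEq, heq_eq_eq] at h4
      exact hστ h4.2

/-- **The conjecture of Hodge type for products of varieties with independent slope traces.** -/
theorem Data.final [IsAlgClosed W.K] (S : Data Φ X e α ι w L P idx) :
    HomEqNum W (nest ops n P).X ∧ HodgeType W (nest ops n P).X (nest ops n P).D ∧
    ∀ U : Polarized 𝒱, SlopesDetermined Φ ι L U.X → U.X.IsCyc 1 U.D → HardLefschetz W U.X U.D →
      (HomEqNum W ((nest ops n P).X.prod U.X) ↔ HomEqNum W U.X) ∧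
      (HodgeType W ((nest ops n P).prod ops U).X ((nest ops n P).prod ops U).D ↔
        HodgeType W U.X U.D) := by
  have hp := (Fact.out : p.Prime)
  have hNR : NoRelation Φ (fun _ ν => InL p ι L ν) X e α (copiesO idx) :=
    noRel_slopes (fun i => (S.hX i).pos) S.hu S.hw S.hind _
  have hZ : IsProductOfCopies W X (copiesO idx) (nest ops n P).X := by
    rw [← sum_cp]
    exact nest_copies n P idx S.hP
  have hTT : TateTimesL Φ (fun _ ν => InL p ι L ν) (nest ops n P).X :=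
    tateTimesL_products hp S.hX S.hu S.heven hZ hNR
  have h1PP : ∀ m : ℕ, 0 < m → InL p ι L (1 : W.K) := fun m _ => inL_one L
  have hpow : ∀ (m : ℕ) (ν : W.K) (n : ℕ), 0 < n → InL p ι L ν → InL p ι L (ν ^ n) :=
    fun m ν n hn h => inL_pow L ν n hn h
  have hD := homEqNum_of_tateTimesL hp.one_lt hTT h1PP
  have hone : (1 : W.H (nest ops n P).X) ≠ 0 :=
    nest_one n _ fun i => one_ne_of_deg (S.hD i) (S.hdeg i)
  refine ⟨hD, S.hodge_nest, fun U hU hB hHL => ?_⟩
  obtain ⟨Q, hQ, hLQ, hroot⟩ := hU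
  have hU' : ∀ ν, Module.End.HasEigenvalue (W.map (Φ.Fr U.X)).toLinearMap ν → InL p ι L ν :=
    fun ν hν => ⟨Q, ν, 1, one_pos, hQ, hLQ, hroot ν hν, (pow_one ν).symm⟩
  refine ⟨homEqNum_prod_iff (fun z hz => tens_of_tateTimesL hp.one_lt hTT h1PP hpow hU' hz) hD
    hone, ?_⟩
  exact hodge_timesL hp.one_lt hTT h1PP hpow
    (nest_lw n _ fun i => by
      obtain ⟨f, Ff, -⟩ := exists_lw (S.hD i) (S.hHL i)
      exact ⟨f, Ff⟩) hone S.hodge_nest hU' hB hHL

/-- the hypotheses without algebraic factors -/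
theorem data_mk {idx : Fin (n + 1) → Fin r} (hX : ∀ i, HasWeilNumber Φ (X i) (e i) (α i))
    (hu : ∀ i, ∀ φ : E i →+* ℂ, ‖φ (α i)‖ = 1) (heven : ∀ i, Even (X i).dim)
    (hw : ∀ i, IsSlopes p ι (α i) (w i)) (hind : SlopeIndependent w L)
    (hP : ∀ a, (P a).X = X (idx a)) (hD : ∀ a, (P a).X.IsCyc 1 (P a).D)
    (hdeg : ∀ a, 0 < (P a).X.V.degCycle (divPow ops (P a).D (P a).X.dim (P a).X.V.fundCycle))
    (hHL : ∀ a, HardLefschetz W (P a).X (P a).D)
    (hH2 : ∀ a b, idx a = idx b →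
      HodgeType W ((P a).prod ops (P b)).X ((P a).prod ops (P b)).D) :
    Data Φ X e α ι w L P (fun a => some (idx a)) :=
  ⟨hX, hu, heven, hw, hind, hP, hD, hdeg, hHL, fun a h => by simp at h,
    fun a b i ha hb => hH2 a b ((Option.some.inj ha).trans (Option.some.inj hb).symm)⟩

end Pool.Agent.U625.ST
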